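import Pool.Agent.W811.LW.Stm

/-! Project LW: the square root of two is badly approximable. -/

set_option autoImplicit false

namespace Pool.Agent.W478.LW.SQ2

open Pool.Agent.W811.LW

theorem ne_zero (q p : ℤ) (hq : 0 < q) : 2 * q ^ 2 - p ^ 2 ≠ 0 := by
  intro h
  have hs : Real.sqrt 2 ^ 2 = 2 := Real.sq_sqrt (by norm_num)
  have hq0 : (q : ℝ) ≠ 0 := by exact_mod_cast hq.ne'
  have h2 : ((q : ℝ) * Real.sqrt 2 - p) * ((q : ℝ) * Real.sqrt 2 + p) = 0 := by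
    have h3 : ((2 * q ^ 2 - p ^ 2 : ℤ) : ℝ) = 0 := by exact_mod_cast h
    push_cast at h3
    nlinarith
  have hirr : Irrational (Real.sqrt 2) := irrational_sqrt_two
  rcases mul_eq_zero.1 h2 with h3 | h3
  · refine hirr ⟨(p : ℚ) / q, ?_⟩
    push_cast
    rw [div_eq_iff hq0]
    linarith
  · refine hirr ⟨-(p : ℚ) / q, ?_⟩
    push_cast
    rw [div_eq_iff hq0]
    linarith

theorem sq2 : Pool.Agent.W811.LW.SQ2 := by
  unfold Pool.Agent.W811.LW.SQ2 BAD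
  intro q p hq
  have hs : Real.sqrt 2 ^ 2 = 2 := Real.sq_sqrt (by norm_num)
  have hs0 : 0 ≤ Real.sqrt 2 := Real.sqrt_nonneg 2
  have hs1 : Real.sqrt 2 ≤ 3 / 2 := by nlinarith
  have hq1 : (1 : ℝ) ≤ q := by exact_mod_cast hq
  have hint : (1 : ℝ) ≤ |((2 * q ^ 2 - p ^ 2 : ℤ) : ℝ)| := by
    have h := Int.one_le_abs (ne_zero q p hq)
    exact_mod_cast h
  have hprod : |(q : ℝ) * Real.sqrt 2 - p| * |(q : ℝ) * Real.sqrt 2 + p| =
      |((2 * q ^ 2 - p ^ 2 : ℤ) : ℝ)| := by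
    rw [← abs_mul]
    congr 1
    push_cast
    nlinarith
  have hplus : |(q : ℝ) * Real.sqrt 2 + p| ≤ 3 * q + |(q : ℝ) * Real.sqrt 2 - p| := by
    have h1 : (q : ℝ) * Real.sqrt 2 + p =
        2 * ((q : ℝ) * Real.sqrt 2) - ((q : ℝ) * Real.sqrt 2 - p) := by ring
    rw [h1]
    refine (abs_sub _ _).trans ?_
    have h2 : |2 * ((q : ℝ) * Real.sqrt 2)| ≤ 3 * q := by
      rw [abs_of_nonneg (by positivity)]
      nlinarith
    linarith
  by_contra hcon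
  push Not at hcon
  have hd0 : 0 ≤ |(q : ℝ) * Real.sqrt 2 - p| := abs_nonneg _
  set d := |(q : ℝ) * Real.sqrt 2 - p| with hd
  have hd1 : d < 1 / 4 := by nlinarith
  have h1 : d * |(q : ℝ) * Real.sqrt 2 + p| ≤ d * (3 * q + d) :=
    mul_le_mul_of_nonneg_left hplus hd0
  rw [← hprod] at hint
  nlinarith

end Pool.Agent.W478.LW.SQ2
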